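import Mathlib
import Pool.Agent.Y744.NB.Stm

/-!
# NB-LIM: two limits
-/

set_option autoImplicit false

namespace Pool.Agent.Y420.NB.LIM

open Pool.Agent.Y744.NB MeasureTheory Set Filter Topology

theorem gw_cont (N : ℕ) (ε : ℝ) (hε : 0 < ε) : ContinuousOn (gw N ε) (Ici 0) := by
  intro s hs
  have hs0 : 0 ≤ s := hs
  have hp : s + ε ^ 2 ≠ 0 := by positivity
  apply ContinuousAt.continuousWithinAt
  unfold gw
  exact (continuousAt_id.add continuousAt_const).rpow_const (Or.inl hp)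

theorem gw_nonneg (N : ℕ) (ε : ℝ) (hε : 0 < ε) (s : ℝ) (hs : 0 ≤ s) : 0 ≤ gw N ε s := by
  unfold gw
  positivity

theorem up (N : ℕ) (hN : 2 ≤ N) (ε : ℝ) (hε : 0 < ε) (s : ℝ) (hs : 0 < s) :
    ε ^ N * gw N ε s ≤ ε / 2 * s ^ (-(1/2) : ℝ) := by
  have hp : 0 < s + ε ^ 2 := by positivity
  have h1 : ε ^ N = (ε ^ 2) ^ ((N:ℝ) / 2) := by
    rw [← Real.rpow_natCast ε 2, ← Real.rpow_mul hε.le, ← Real.rpow_natCast ε N]
    congr 1
    push_cast
    ring
  have h2 : ε ^ N * gw N ε s = (ε ^ 2 / (s + ε ^ 2)) ^ ((N:ℝ) / 2) := by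
    rw [h1, gw, Real.div_rpow (by positivity) hp.le, neg_div, Real.rpow_neg hp.le]
    rfl
  have h3 : ε ^ 2 / (s + ε ^ 2) ≤ 1 := by
    rw [div_le_one hp]; linarith
  have hN2 : (1:ℝ) ≤ (N:ℝ) / 2 := by
    have : (2:ℝ) ≤ N := by exact_mod_cast hN
    linarith
  have h4 : (ε ^ 2 / (s + ε ^ 2)) ^ ((N:ℝ) / 2) ≤ (ε ^ 2 / (s + ε ^ 2)) ^ (1:ℝ) :=
    Real.rpow_le_rpow_of_exponent_ge (by positivity) h3 hN2
  rw [Real.rpow_one] at h4
  rw [h2]
  refine h4.trans ?_
  have hsq : 0 < Real.sqrt s := Real.sqrt_pos.2 hs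
  have h5 : s ^ (-(1/2) : ℝ) = (Real.sqrt s)⁻¹ := by
    rw [Real.rpow_neg hs.le, Real.sqrt_eq_rpow]
  rw [h5, ← div_eq_mul_inv, div_div, div_le_div_iff₀ hp (by positivity)]
  have h6 : Real.sqrt s * Real.sqrt s = s := Real.mul_self_sqrt hs.le
  have h7 : 2 * (ε * Real.sqrt s) ≤ s + ε ^ 2 := by nlinarith [sq_nonneg (Real.sqrt s - ε)]
  calc ε ^ 2 * (2 * Real.sqrt s) = ε * (2 * (ε * Real.sqrt s)) := by ring
    _ ≤ ε * (s + ε ^ 2) := mul_le_mul_of_nonneg_left h7 hε.le

theorem low (N : ℕ) (R : ℝ) (hN : 2 ≤ N) (hR : 0 < R) (ε : ℝ) (hε : 0 < ε) (s : ℝ)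
    (hs : ε ^ 2 ≤ s) (hsR : s ≤ R) :
    (2 * R) ^ (-(N:ℝ) / 2) * R * s⁻¹ ≤ gw N ε s := by
  have hs0 : 0 < s := lt_of_lt_of_le (by positivity) hs
  have hN2 : -(N:ℝ) / 2 ≤ -1 := by
    have : (2:ℝ) ≤ N := by exact_mod_cast hN
    linarith
  have h1 : (2 * s) ^ (-(N:ℝ) / 2) ≤ gw N ε s := by
    unfold gw
    apply Real.rpow_le_rpow_of_nonpos (by positivity) (by linarith) (by linarith)
  refine le_trans ?_ h1
  have h2 : (2 * s) = (2 * R) * (s / R) := by field_simp
  have h4 : (2 * R * (s / R)) ^ (-(N:ℝ) / 2) =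
      (2 * R) ^ (-(N:ℝ) / 2) * (s / R) ^ (-(N:ℝ) / 2) :=
    Real.mul_rpow (by positivity) (by positivity)
  rw [h2, h4, mul_assoc]
  apply mul_le_mul_of_nonneg_left _ (by positivity)
  have h3 : (s / R) ^ (-1 : ℝ) ≤ (s / R) ^ (-(N:ℝ) / 2) :=
    Real.rpow_le_rpow_of_exponent_ge (by positivity) ((div_le_one hR).2 hsR) hN2
  refine le_trans (le_of_eq ?_) h3
  rw [Real.rpow_neg_one, inv_div, div_eq_mul_inv]

theorem t : S_LIM := by
  intro N R hN hR
  constructor
  · have hI : IntervalIntegrable (fun x : ℝ => x ^ (-(1/2) : ℝ)) volume 0 R :=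
      intervalIntegral.intervalIntegrable_rpow' (by norm_num)
    have hup : Tendsto (fun ε : ℝ => ε / 2 * ∫ x in (0:ℝ)..R, x ^ (-(1/2) : ℝ))
        (𝓝[>] 0) (𝓝 0) := by
      have : Tendsto (fun ε : ℝ => ε / 2 * ∫ x in (0:ℝ)..R, x ^ (-(1/2) : ℝ))
        (𝓝 0) (𝓝 (0 / 2 * ∫ x in (0:ℝ)..R, x ^ (-(1/2) : ℝ))) := by
        apply Tendsto.mul_const
        exact tendsto_id.div_const 2
      rw [zero_div, zero_mul] at this
      exact this.mono_left nhdsWithin_le_nhds
    refine tendsto_of_tendsto_of_tendsto_of_le_of_le' tendsto_const_nhds hup ?_ ?_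
    · filter_upwards [self_mem_nhdsWithin] with ε hε
      have hε' : 0 < ε := hε
      apply mul_nonneg (by positivity)
      apply intervalIntegral.integral_nonneg hR.le
      intro x hx
      exact gw_nonneg N ε hε' x hx.1
    · filter_upwards [self_mem_nhdsWithin] with ε hε
      have hε' : 0 < ε := hε
      rw [← intervalIntegral.integral_const_mul, ← intervalIntegral.integral_const_mul]
      apply intervalIntegral.integral_mono_on_of_le_Ioo hR.le
      · apply IntervalIntegrable.const_mul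
        apply ContinuousOn.intervalIntegrable
        apply (gw_cont N ε hε').mono
        rw [uIcc_of_le hR.le]
        exact Icc_subset_Ici_self
      · exact hI.const_mul _
      · intro x hx
        exact up N hN ε hε' x hx.1
  · have hlow : Tendsto (fun ε : ℝ => (2 * R) ^ (-(N:ℝ) / 2) * R * Real.log (R / ε ^ 2))
        (𝓝[>] 0) atTop := by
      apply Tendsto.const_mul_atTop (by positivity)
      apply Real.tendsto_log_atTop.comp
      have h1 : Tendsto (fun ε : ℝ => (ε⁻¹) ^ 2) (𝓝[>] 0) atTop :=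
        (tendsto_pow_atTop (by norm_num)).comp tendsto_inv_nhdsGT_zero
      have h2 := Tendsto.const_mul_atTop hR h1
      refine h2.congr ?_
      intro ε
      rw [inv_pow, div_eq_mul_inv]
    refine tendsto_atTop_mono' _ ?_ hlow
    have hsm : ∀ᶠ ε : ℝ in 𝓝[>] 0, ε ^ 2 < R := by
      have h1 : Tendsto (fun ε : ℝ => ε ^ 2) (𝓝 0) (𝓝 (0 ^ 2)) := tendsto_id.pow 2
      have h2 : ∀ᶠ ε : ℝ in 𝓝 0, ε ^ 2 < R := by
        apply h1.eventually_lt_const
        simpa using hR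
      exact h2.filter_mono nhdsWithin_le_nhds
    filter_upwards [self_mem_nhdsWithin, hsm] with ε hε hεR
    have hε' : 0 < ε := hε
    have hε2 : 0 < ε ^ 2 := by positivity
    rw [← integral_inv_of_pos hε2 hR, ← intervalIntegral.integral_const_mul]
    apply intervalIntegral.integral_mono_on hεR.le
    · apply ContinuousOn.intervalIntegrable
      rw [uIcc_of_le hεR.le]
      apply continuousOn_const.mul
      apply continuousOn_id.inv₀
      intro x hx
      exact (hε2.trans_le hx.1).ne'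
    · apply ContinuousOn.intervalIntegrable
      apply (gw_cont N ε hε').mono
      rw [uIcc_of_le hεR.le]
      intro x hx
      exact hε2.le.trans hx.1
    · intro x hx
      exact low N R hN hR ε hε' x hx.1 hx.2

end Pool.Agent.Y420.NB.LIM
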