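import Mathlib
import Pool.Agent.Y744.NB.Stm

/-!
# NB-ODE1: first exit argument
-/

set_option autoImplicit false

namespace Pool.Agent.Y420.NB.ODE1

open Pool.Agent.Y744.NB MeasureTheory Set

theorem t : S_ODE1 := by
  intro T τ D w g hτ hτT hD hτD hg hw hae t ht
  by_contra hcon
  push Not at hcon
  have hT : (0:ℝ) ≤ T := hτ.le.trans hτT
  have hc : ContinuousOn (fun t => ∫ s in (0:ℝ)..t, g s) (Icc 0 T) := by
    have h1 := intervalIntegral.continuousOn_primitive_interval' hg left_mem_uIcc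
    rwa [uIcc_of_le hT] at h1
  have hwc : ContinuousOn w (Icc 0 T) := hc.congr hw
  have htT : Icc 0 t ⊆ Icc 0 T := Icc_subset_Icc le_rfl (ht.2.trans hτT)
  have hcl : IsClosed (Icc 0 t ∩ w ⁻¹' (Ici 1)) :=
    (hwc.mono htT).preimage_isClosed_of_isClosed isClosed_Icc isClosed_Ici
  have hcomp : IsCompact (Icc 0 t ∩ w ⁻¹' (Ici 1)) :=
    isCompact_Icc.of_isClosed_subset hcl inter_subset_left
  obtain ⟨a, ha, hmin⟩ := hcomp.exists_isLeast ⟨t, ⟨ht.1, le_rfl⟩, hcon.le⟩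
  have ha0 : 0 ≤ a := ha.1.1
  have hat : a ≤ t := ha.1.2
  have haT : a ≤ T := hat.trans (ht.2.trans hτT)
  have ha1 : 1 ≤ w a := ha.2
  rw [hw a ⟨ha0, haT⟩] at ha1
  have hlt : ∀ s, 0 ≤ s → s < a → w s ≤ 1 := by
    intro s hs0 hsa
    by_contra hh
    push Not at hh
    exact absurd (hmin ⟨⟨hs0, hsa.le.trans hat⟩, hh.le⟩) (not_le.2 hsa)
  have hga : IntervalIntegrable g volume 0 a :=
    hg.mono_set (by rw [uIcc_of_le ha0, uIcc_of_le hT]; exact Icc_subset_Icc le_rfl haT)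
  have hle : ∫ s in (0:ℝ)..a, g s ≤ ∫ s in (0:ℝ)..a, D := by
    apply intervalIntegral.integral_mono_ae_restrict ha0 hga (intervalIntegrable_const)
    rw [Filter.EventuallyLE, ae_restrict_iff' measurableSet_Icc]
    have hne : ∀ᵐ s : ℝ, s ≠ a := by
      rw [ae_iff]
      simp
    filter_upwards [hae, hne] with s hs hsa hsI
    exact hs ⟨hsI.1, hsI.2.trans haT⟩ ((hsI.2.trans hat).trans ht.2)
      (hlt s hsI.1 (lt_of_le_of_ne hsI.2 hsa))
  rw [intervalIntegral.integral_const, sub_zero, smul_eq_mul] at hle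
  have h2 : a * D ≤ τ * D := mul_le_mul_of_nonneg_right (hat.trans ht.2) hD.le
  linarith

end Pool.Agent.Y420.NB.ODE1
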