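import Mathlib
import Pool.Agent.Y744.NB.Stm

/-!
# NB-PSH: derivatives of the profile
-/

set_option autoImplicit false

namespace Pool.Agent.Y420.NB.PSH

open Pool.Agent.Y744.NB MeasureTheory Set Filter Topology
open scoped ContDiff

theorem t : S_PSH := by
  intro N χ R ε hε hR hχ
  have hpos : ∀ s : ℝ, s ∈ Ioi (-ε ^ 2) → 0 < s + ε ^ 2 := by
    intro s hs
    have : -ε ^ 2 < s := hs
    linarith
  have hgs : ContDiffOn ℝ ∞ (gw N ε) (Ioi (-ε ^ 2)) := by
    intro s hs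
    apply ContDiffAt.contDiffWithinAt
    unfold gw
    exact (contDiffAt_id.add contDiffAt_const).rpow_const_of_ne (hpos s hs).ne'
  let q : ℝ → ℝ := fun σ => gw N ε σ * χ σ
  have hq : ContDiffOn ℝ ∞ q (Ioi (-ε ^ 2)) := hgs.mul hχ.contDiffOn
  have hRU : R ∈ Ioi (-ε ^ 2) := by
    change -ε ^ 2 < R
    nlinarith [sq_nonneg ε]
  have hPd : ∀ s ∈ Ioi (-ε ^ 2), HasDerivAt (Ps N χ R ε) (-q s) s := by
    intro s hs
    have hsub : uIcc s R ⊆ Ioi (-ε ^ 2) := by
      intro x hx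
      have h1 : min s R ≤ x := hx.1
      exact lt_of_lt_of_le (lt_min hs hRU) h1
    exact intervalIntegral.integral_hasDerivAt_left
      ((hq.continuousOn.mono hsub).intervalIntegrable)
      (hq.continuousOn.stronglyMeasurableAtFilter isOpen_Ioi s hs)
      (hq.continuousOn.continuousAt (isOpen_Ioi.mem_nhds hs))
  have hd1 : ∀ s ∈ Ioi (-ε ^ 2), deriv (Ps N χ R ε) s = -q s := fun s hs => (hPd s hs).deriv
  refine ⟨?_, ?_⟩
  · rw [contDiffOn_infty_iff_deriv_of_isOpen isOpen_Ioi]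
    refine ⟨fun s hs => (hPd s hs).differentiableAt.differentiableWithinAt, ?_⟩
    exact hq.neg.congr hd1
  · intro s hs
    refine ⟨hd1 s hs, ?_⟩
    have hev : deriv (Ps N χ R ε) =ᶠ[𝓝 s] fun x => -q x := by
      filter_upwards [isOpen_Ioi.mem_nhds hs] with x hx
      exact hd1 x hx
    rw [hev.deriv_eq]
    have hp : 0 < s + ε ^ 2 := hpos s hs
    have hg1 : HasDerivAt (fun σ : ℝ => σ + ε ^ 2) 1 s := (hasDerivAt_id s).add_const _
    have hg2 : HasDerivAt (gw N ε) (1 * (-(N : ℝ) / 2) * (s + ε ^ 2) ^ (-(N : ℝ) / 2 - 1)) s :=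
      hg1.rpow_const (Or.inl hp.ne')
    have hχd : HasDerivAt χ (deriv χ s) s :=
      (hχ.differentiable (by simp) s).hasDerivAt
    have h3 : HasDerivAt (fun x => -q x) _ s := (hg2.mul hχd).neg
    rw [h3.deriv, Real.rpow_sub_one hp.ne']
    simp only [gw]
    field_simp
    ring

end Pool.Agent.Y420.NB.PSH
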